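import Pool.Agent.V11265.PH2

/-!
# Haar weights of polynomial hypergroups with `0` in the dual space

`h(2) ≥ 2` (and hence `h(n) ≥ 2` for all `n`) may fail, and `h(2)` may be arbitrarily close to
the trivial bound `1`; but `h(n) ≥ 2` does hold for all odd `n`.
-/

namespace Pool.Agent.Results.MP_5cc272_an.HaarWeightTwo

open Pool.Agent.V11265.PH

theorem result :
    (∀ r : ℝ, 0 < r → r < 1 / 4 → IsHypergroup (fam r) ∧ ZeroInDual (fam r) ∧
      h (fam r) 2 = (1 + 2 * r) / ((1 - 2 * r) * (1 - 4 * r)) ∧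
      ∀ n, 3 ≤ n → h (fam r) n = 4 * h (fam r) 2) ∧
    (∀ ε : ℝ, 0 < ε → ∃ c : ℕ → ℝ, IsHypergroup c ∧ ZeroInDual c ∧ h c 2 < 1 + ε) ∧
    (∀ c : ℕ → ℝ, IsHypergroup c → ZeroInDual c → ∀ n, Odd n → 2 ≤ h c n) := by
  refine ⟨fun r h0 h1 => ⟨fam_hyp h0 h1, fam_zero h0 h1, fam_h_two h0 h1, fam_h_ge h0 h1⟩,
    fun ε hε => ?_, ?_⟩
  · have hd : 0 < 16 + 16 * ε := by positivity
    have h0 : 0 < ε / (16 + 16 * ε) := by positivity
    have h2 : ε / (16 + 16 * ε) < 1 / 16 := by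
      rw [div_lt_div_iff₀ hd (by norm_num)]; linarith
    have h1 : ε / (16 + 16 * ε) < 1 / 4 := by linarith
    have h3 : ε / (16 + 16 * ε) * (16 + 16 * ε) = ε := div_mul_cancel₀ _ hd.ne'
    refine ⟨fam (ε / (16 + 16 * ε)), fam_hyp h0 h1, fam_zero h0 h1, ?_⟩
    rw [fam_h_two h0 h1]
    generalize ε / (16 + 16 * ε) = r at *
    have e1 : 0 < 1 - 2 * r := by linarith
    have e2 : 0 < 1 - 4 * r := by linarith
    rw [div_lt_iff₀ (by positivity)]
    nlinarith [mul_pos h0 hε, mul_pos h0 h0, mul_pos (mul_pos h0 h0) hε]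
  · rintro c hc hz n ⟨k, rfl⟩
    exact two_le_h hc hz k

end Pool.Agent.Results.MP_5cc272_an.HaarWeightTwo
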